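import Pool.Agent.W787.KG.Defs

/-!
# KG-NB: bound and continuity of the bilinear term
-/

set_option autoImplicit false

open MeasureTheory Set Metric Filter Topology Real
open scoped ContDiff

noncomputable section

namespace Pool.Agent.W356.KG.NB

open Pool.Agent.W787.KG

lemma Wg_pos (p : ℕ) (σ L : ℝ) (ξ : E) (hσ : 0 ≤ σ) (hL : 0 ≤ L) : 0 < Wg p σ L ξ := by
  unfold Wg
  positivity

lemma Wg_le_one (p : ℕ) (σ L : ℝ) (ξ : E) (hσ : 0 ≤ σ) (hL : 0 ≤ L) : Wg p σ L ξ ≤ 1 := by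
  unfold Wg
  rw [div_le_one (by positivity)]
  apply one_le_pow₀
  have h1 : 1 ≤ 1 + σ * |ξ 0| := by
    have : 0 ≤ σ * |ξ 0| := by positivity
    linarith
  have h2 : 1 ≤ 1 + σ * |ξ 1| := by
    have : 0 ≤ σ * |ξ 1| := by positivity
    linarith
  have h3 : 1 ≤ 1 + L * |ξ 2| := by
    have : 0 ≤ L * |ξ 2| := by positivity
    linarith
  exact one_le_mul_of_one_le_of_one_le (one_le_mul_of_one_le_of_one_le h1 h2) h3

lemma ker_bound (ξ η : E) : |inner ℝ ξ η / ‖η‖ ^ 2| ≤ ‖ξ‖ * (1 / ‖η‖) := by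
  by_cases h : η = 0
  · rw [h]
    simp
  · have h1 : 0 < ‖η‖ := norm_pos_iff.2 h
    rw [abs_div, abs_of_pos (pow_pos h1 2), div_le_iff₀ (pow_pos h1 2)]
    have h2 := abs_real_inner_le_norm ξ η
    have h3 : ‖ξ‖ * (1 / ‖η‖) * ‖η‖ ^ 2 = ‖ξ‖ * ‖η‖ := by
      field_simp
    rw [h3]
    exact h2

lemma meas (f h : E → ℝ) (hf : Continuous f) (hh : Continuous h) (ξ : E) :
    AEStronglyMeasurable (fun η : E => inner ℝ ξ η / ‖η‖ ^ 2 * f (ξ - η) * h η) volume := by
  have h1 : Measurable (fun η : E => inner ℝ ξ η / ‖η‖ ^ 2) := by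
    have h2 : Measurable (fun η : E => (inner ℝ ξ η : ℝ)) := by
      have : Continuous (fun η : E => (inner ℝ ξ η : ℝ)) := by fun_prop
      exact this.measurable
    have h3 : Measurable (fun η : E => ‖η‖ ^ 2) := by
      have : Continuous (fun η : E => ‖η‖ ^ 2) := by fun_prop
      exact this.measurable
    exact h2.div h3
  have h4 : Measurable (fun η : E => f (ξ - η)) := by
    have : Continuous (fun η : E => f (ξ - η)) := by fun_prop
    exact this.measurable
  exact ((h1.mul h4).mul hh.measurable).aestronglyMeasurable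

theorem nb (h1 : S_PB) : S_NB := by
  intro p hp
  obtain ⟨C, hC, h2⟩ := h1 p hp
  refine ⟨C, hC, ?_⟩
  intro σ L a b f h hσ hL ha hb hf hh hfa hhb ξ
  obtain ⟨hI, hB⟩ := h2 σ L ξ hσ hL
  have hgI : Integrable (fun η : E => (a * b * ‖ξ‖) *
      (1 / ‖η‖ * Wg p σ L (ξ - η) * Wg p σ L η)) := hI.const_mul _
  have hbd : ∀ η : E, ‖inner ℝ ξ η / ‖η‖ ^ 2 * f (ξ - η) * h η‖ ≤
      (a * b * ‖ξ‖) * (1 / ‖η‖ * Wg p σ L (ξ - η) * Wg p σ L η) := by
    intro η
    rw [Real.norm_eq_abs, abs_mul, abs_mul]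
    have e1 := ker_bound ξ η
    have e2 := hfa (ξ - η)
    have e3 := hhb η
    have w1 := (Wg_pos p σ L (ξ - η) hσ.le hL.le).le
    have w2 := (Wg_pos p σ L η hσ.le hL.le).le
    calc |inner ℝ ξ η / ‖η‖ ^ 2| * |f (ξ - η)| * |h η|
        ≤ (‖ξ‖ * (1 / ‖η‖)) * (a * Wg p σ L (ξ - η)) * (b * Wg p σ L η) := by
          apply mul_le_mul _ e3 (abs_nonneg _)
          · have : 0 ≤ 1 / ‖η‖ := by positivity
            have := norm_nonneg ξ
            positivity
          · apply mul_le_mul e1 e2 (abs_nonneg _)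
            positivity
      _ = _ := by ring
  refine ⟨hgI.mono' (meas f h hf hh ξ) (Eventually.of_forall hbd), ?_⟩
  have e1 : ‖NN f h ξ‖ ≤ ∫ η, (a * b * ‖ξ‖) * (1 / ‖η‖ * Wg p σ L (ξ - η) * Wg p σ L η) := by
    unfold NN
    exact norm_integral_le_of_norm_le hgI (Eventually.of_forall hbd)
  rw [Real.norm_eq_abs, integral_const_mul] at e1
  refine e1.trans ?_
  have e2 : 0 ≤ a * b * ‖ξ‖ := by positivity
  calc a * b * ‖ξ‖ * ∫ η, 1 / ‖η‖ * Wg p σ L (ξ - η) * Wg p σ L η
      ≤ a * b * ‖ξ‖ * (C / (σ * L) * Wg p σ L ξ) := mul_le_mul_of_nonneg_left hB e2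
    _ = _ := by ring

theorem nc (h2 : S_WI) : S_NC := by
  intro f h K hf hh hfK hhK
  have hK : 0 ≤ K := by
    have e1 := hfK 0 0
    have e2 := Wg_pos 2 1 1 0 zero_le_one zero_le_one
    have e3 : 0 ≤ K * Wg 2 1 1 0 := (abs_nonneg _).trans e1
    by_contra hcon
    push Not at hcon
    have := mul_neg_of_neg_of_pos hcon e2
    linarith
  have hI := (h2 2 le_rfl).2
  rw [continuous_iff_continuousAt]
  rintro ⟨t₀, ξ₀⟩
  unfold NN
  have hfc : ∀ t, Continuous (f t) := fun t => by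
    have : Continuous (fun x : E => (t, x)) := by fun_prop
    exact hf.comp this
  have hhc : ∀ t, Continuous (h t) := fun t => by
    have : Continuous (fun x : E => (t, x)) := by fun_prop
    exact hh.comp this
  apply continuousAt_of_dominated
    (bound := fun η : E => ((‖ξ₀‖ + 1) * K * K) * (1 / ‖η‖ * Wg 2 1 1 η))
  · exact Eventually.of_forall fun z => meas (f z.1) (h z.1) (hfc z.1) (hhc z.1) z.2
  · have e1 : ∀ᶠ z : ℝ × E in 𝓝 (t₀, ξ₀), ‖z.2‖ < ‖ξ₀‖ + 1 := by
      have : ContinuousAt (fun z : ℝ × E => ‖z.2‖) (t₀, ξ₀) := by fun_prop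
      exact this.eventually (gt_mem_nhds (by simp))
    filter_upwards [e1] with z hz
    refine Eventually.of_forall fun η => ?_
    rw [Real.norm_eq_abs, abs_mul, abs_mul]
    have a1 := ker_bound z.2 η
    have a2 : |f z.1 (z.2 - η)| ≤ K := by
      refine (hfK z.1 (z.2 - η)).trans ?_
      have := Wg_le_one 2 1 1 (z.2 - η) zero_le_one zero_le_one
      nlinarith
    have a3 := hhK z.1 η
    have w2 := (Wg_pos 2 1 1 η zero_le_one zero_le_one).le
    have w3 : 0 ≤ 1 / ‖η‖ := by positivity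
    calc |inner ℝ z.2 η / ‖η‖ ^ 2| * |f z.1 (z.2 - η)| * |h z.1 η|
        ≤ ((‖ξ₀‖ + 1) * (1 / ‖η‖)) * K * (K * Wg 2 1 1 η) := by
          apply mul_le_mul _ a3 (abs_nonneg _)
          · positivity
          · apply mul_le_mul _ a2 (abs_nonneg _)
            · positivity
            · refine a1.trans ?_
              exact mul_le_mul_of_nonneg_right hz.le w3
      _ = _ := by ring
  · exact hI.const_mul _
  · refine Eventually.of_forall fun η => ?_
    have c1 : Continuous (fun z : ℝ × E => (z.1, z.2 - η)) := by fun_prop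
    have c2 : Continuous (fun z : ℝ × E => f z.1 (z.2 - η)) := hf.comp c1
    have c3 : Continuous (fun z : ℝ × E => (z.1, η)) := by fun_prop
    have c4 : Continuous (fun z : ℝ × E => h z.1 η) := hh.comp c3
    have c5 : Continuous (fun z : ℝ × E => (inner ℝ z.2 η : ℝ) / ‖η‖ ^ 2) := by
      have : Continuous (fun z : ℝ × E => (inner ℝ z.2 η : ℝ)) := by fun_prop
      exact this.div_const _
    exact ((c5.mul c2).mul c4).continuousAt

end Pool.Agent.W356.KG.NB
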